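import Mathlib

set_option autoImplicit false

noncomputable section

namespace MG.Br

open NumberField Polynomial IntermediateField

variable {F : Type} [Field F] [NumberField F] [IsTotallyReal F]

omit [NumberField F] in
theorem cay_re (σ : F →+* ℂ) (f : F) : ∃ t : ℝ, σ f = t := by
  have h := ComplexEmbedding.isReal_iff.1 (IsTotallyReal.complexEmbedding_isReal σ)
  have e : starRingEnd ℂ (σ f) = σ f := by rw [← ComplexEmbedding.conjugate_coe_eq, h]
  exact Complex.conj_eq_iff_real.1 e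

theorem cay_sq (r : F) : r ^ 2 + 1 ≠ 0 := fun h => by
  obtain ⟨σ⟩ : Nonempty (F →+* ℂ) := inferInstance
  obtain ⟨t, ht⟩ := cay_re σ r
  have e := congrArg σ h
  rw [map_add, map_pow, ht, map_one, map_zero] at e
  have e' : t ^ 2 + 1 = 0 := by exact_mod_cast e
  nlinarith [sq_nonneg t]

theorem cay_xy : ∃ x y : F, x ^ 2 + y ^ 2 = 1 ∧ y ≠ 0 ∧
    ∀ σ τ : F →+* ℂ, σ x = τ x → σ = τ := by
  obtain ⟨a, ha⟩ := Field.exists_primitive_element ℚ F
  rw [Field.primitive_element_iff_algHom_eq_of_eval' ℚ ℂ fun _ => IsAlgClosed.splits _] at ha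
  obtain ⟨n, hn⟩ := exists_nat_gt (∑ σ : F →+* ℂ, ‖σ a‖)
  have pos : ∀ σ : F →+* ℂ, ∃ t : ℝ, 0 < t ∧ σ (a + n) = t := fun σ => by
    obtain ⟨t, ht⟩ := cay_re σ a
    have h1 := Finset.single_le_sum (f := fun σ : F →+* ℂ => ‖σ a‖) (fun _ _ => norm_nonneg _)
      (Finset.mem_univ σ)
    simp only [ht, Complex.norm_real, Real.norm_eq_abs] at h1
    refine ⟨t + n, by linarith [neg_abs_le t], ?_⟩
    rw [map_add, ht, map_natCast]
    push_cast
    rfl
  have h0 := cay_sq (a + n)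
  refine ⟨((a + n) ^ 2 - 1) / ((a + n) ^ 2 + 1), 2 * (a + n) / ((a + n) ^ 2 + 1), ?_, ?_,
    fun σ τ h => ?_⟩
  · field_simp
    ring
  · obtain ⟨σ⟩ : Nonempty (F →+* ℂ) := inferInstance
    obtain ⟨t, h1, h2⟩ := pos σ
    refine div_ne_zero (mul_ne_zero two_ne_zero fun e => ?_) h0
    rw [e, map_zero] at h2
    exact h1.ne (by exact_mod_cast h2)
  · obtain ⟨s, s1, s2⟩ := pos σ
    obtain ⟨t, t1, t2⟩ := pos τ
    simp only [map_div₀, map_sub, map_pow, map_one, map_add σ ((a + n) ^ 2),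
      map_add τ ((a + n) ^ 2), s2, t2] at h
    have e : (s ^ 2 - 1) / (s ^ 2 + 1) = (t ^ 2 - 1) / (t ^ 2 + 1) := by exact_mod_cast h
    rw [div_eq_div_iff (by positivity) (by positivity)] at e
    have e2 : s = t := (pow_left_inj₀ s1.le t1.le two_ne_zero).1 (by linarith)
    have e3 : σ a = τ a := by
      have := s2.trans (e2 ▸ t2.symm)
      simpa using this
    have := ha (a₁ := σ.toRatAlgHom) (a₂ := τ.toRatAlgHom) e3
    exact RingHom.ext fun f => DFunLike.congr_fun this f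

theorem cay_gen {E : Type} [Field E] [Algebra ℚ E] [Algebra F E] {i : E} (hi : i * i = -1)
    (hs : ∀ e, ∃ s t : F, e = algebraMap F E s + algebraMap F E t * i)
    (h2 : Module.finrank F E = 2) {x y : F} (hxy : x ^ 2 + y ^ 2 = 1) (hy : y ≠ 0)
    (hx : ∀ σ τ : F →+* ℂ, σ x = τ x → σ = τ) {N : ℚ} (hN : N ≠ 0) {w : E}
    (hw : w = N • (algebraMap F E x + algebraMap F E y * i)) :
    Irreducible (minpoly ℚ w) ∧ (minpoly ℚ w).natDegree = 2 * Module.finrank ℚ F ∧
      (∀ z : ℂ, aeval z (minpoly ℚ w) = 0 → ‖z‖ ^ 2 = (N : ℝ) ^ 2 ∧ z.im ≠ 0) ∧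
      ∀ e, ∃ c : Polynomial ℚ, aeval w c = e := by
  have : FiniteDimensional F E := Module.finite_of_finrank_pos (by omega)
  have : FiniteDimensional ℚ E := Module.Finite.trans F E
  have hw0 : IsIntegral ℚ w := .of_finite ℚ w
  have key : ∀ σ : E →ₐ[ℚ] ℂ, ∃ s t : ℝ, σ (algebraMap F E x) = s ∧ σ (algebraMap F E y) = t ∧
      s ^ 2 + t ^ 2 = 1 ∧ t ≠ 0 ∧ (σ i = Complex.I ∨ σ i = -Complex.I) ∧
      σ w = N * (s + t * σ i) := fun σ => by
    obtain ⟨s, hs⟩ := cay_re (σ.toRingHom.comp (algebraMap F E)) x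
    obtain ⟨t, ht⟩ := cay_re (σ.toRingHom.comp (algebraMap F E)) y
    have e := congrArg (σ.toRingHom.comp (algebraMap F E)) hxy
    rw [map_add, map_pow, map_pow, hs, ht, map_one] at e
    refine ⟨s, t, hs, ht, by exact_mod_cast e, fun h => hy ?_, ?_, ?_⟩
    · rw [h, Complex.ofReal_zero] at ht
      exact (map_eq_zero _).1 ht
    · rw [← mul_self_eq_mul_self_iff, ← map_mul, hi, Complex.I_mul_I, map_neg, map_one]
    · rw [hw, map_smul, map_add, map_mul, ← hs, ← ht, Rat.smul_def]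
      rfl
  have prim : ℚ⟮w⟯ = ⊤ := by
    rw [Field.primitive_element_iff_algHom_eq_of_eval' ℚ ℂ fun _ => IsAlgClosed.splits _]
    intro σ τ h
    obtain ⟨s, t, s1, s2, -, s4, s5, s6⟩ := key σ
    obtain ⟨s', t', t1, t2, -, -, t5, t6⟩ := key τ
    have e : (s : ℂ) + t * σ i = s' + t' * τ i :=
      mul_left_cancel₀ (Rat.cast_ne_zero.2 hN) (s6.symm.trans (h.trans t6))
    have e1 : s = s' := by
      have := congrArg Complex.re e
      rcases s5 with s5 | s5 <;> rcases t5 with t5 | t5 <;> simpa [s5, t5] using this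
    have e2 := hx (σ.toRingHom.comp (algebraMap F E)) (τ.toRingHom.comp (algebraMap F E))
      (s1.trans (e1 ▸ t1.symm))
    have e3 : ∀ f, σ (algebraMap F E f) = τ (algebraMap F E f) := fun f => DFunLike.congr_fun e2 f
    have e4 : σ i = τ i := by
      rw [← e1, ← t2, ← e3, s2, add_right_inj] at e
      exact mul_left_cancel₀ (Complex.ofReal_ne_zero.2 s4) e
    refine AlgHom.ext fun u => ?_
    obtain ⟨a, b, rfl⟩ := hs u
    simp only [map_add, map_mul, e3, e4]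
  refine ⟨minpoly.irreducible hw0, ?_, fun z hz => ?_, fun e => ?_⟩
  · rw [(Field.primitive_element_iff_minpoly_natDegree_eq ℚ w).1 prim,
      ← Module.finrank_mul_finrank ℚ F E, h2, mul_comm]
  · have hm : z ∈ (minpoly ℚ w).rootSet ℂ := mem_rootSet.2 ⟨minpoly.ne_zero hw0, hz⟩
    rw [← (Algebra.IsAlgebraic.of_finite ℚ E).range_eval_eq_rootSet_minpoly ℂ w] at hm
    obtain ⟨σ, rfl⟩ := hm
    obtain ⟨s, t, -, -, s3, s4, s5, s6⟩ := key σ
    have n0 : (N : ℝ) ≠ 0 := Rat.cast_ne_zero.2 hN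
    simp only [s6, Complex.sq_norm, Complex.normSq_apply]
    rcases s5 with s5 | s5 <;> simp [s5, n0, s4] <;> linear_combination (N : ℝ) ^ 2 * s3
  · have hm : e ∈ ℚ⟮w⟯.toSubalgebra := by
      rw [prim]
      trivial
    rw [adjoin_simple_toSubalgebra_of_isAlgebraic hw0.isAlgebraic,
      Algebra.adjoin_singleton_eq_range_aeval] at hm
    exact hm

/-- A generator of `F(i)` of the form `N (x + y i)` with `x ^ 2 + y ^ 2 = 1`. -/
theorem exists_cay (F : Type) [Field F] [NumberField F] [NumberField.IsTotallyReal F] :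
    ∃ x y : F, x ^ 2 + y ^ 2 = 1 ∧ ∀ (A : Type) [Ring A] [Algebra ℚ A] [Nontrivial A]
      (ψ : F →ₐ[ℚ] A) (j : A), j * j = -1 → (∀ f, Commute (ψ f) j) → ∀ N : ℚ, N ≠ 0 →
      Irreducible (minpoly ℚ (N • (ψ x + ψ y * j))) ∧
      (minpoly ℚ (N • (ψ x + ψ y * j))).natDegree = 2 * Module.finrank ℚ F ∧
      (∀ z : ℂ, Polynomial.aeval z (minpoly ℚ (N • (ψ x + ψ y * j))) = 0 →
        ‖z‖ ^ 2 = (N : ℝ) ^ 2 ∧ z.im ≠ 0) ∧
      ∀ s t : F, ∃ c : Polynomial ℚ,
        Polynomial.aeval (N • (ψ x + ψ y * j)) c = ψ s + ψ t * j := by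
  obtain ⟨x, y, hxy, hy, hx⟩ := cay_xy (F := F)
  refine ⟨x, y, hxy, fun A _ _ _ ψ j hj hc N hN => ?_⟩
  have : Fact (∀ r : F, r ^ 2 ≠ -1 + 0 * r) :=
    ⟨fun r h => cay_sq r (by rw [h]; ring)⟩
  let Φ : QuadraticAlgebra F (-1) 0 →+* A :=
    { toFun := fun e => ψ e.re + ψ e.im * j
      map_one' := by simp [QuadraticAlgebra.re_one, QuadraticAlgebra.im_one]
      map_zero' := by simp
      map_add' := fun a b => by
        simp only [QuadraticAlgebra.re_add, QuadraticAlgebra.im_add, map_add, add_mul]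
        abel
      map_mul' := fun a b => by
        have e1 : ψ a.im * j * (ψ b.im * j) = -(ψ a.im * ψ b.im) := by
          rw [mul_assoc, ← mul_assoc j, ← (hc _).eq, mul_assoc, hj]
          simp
        have e2 : ψ a.im * j * ψ b.re = ψ a.im * ψ b.re * j := by
          rw [mul_assoc, ← (hc _).eq, mul_assoc]
        simp only [QuadraticAlgebra.re_mul, QuadraticAlgebra.im_mul, map_add, map_mul, map_neg,
          map_one, map_zero, add_mul, mul_add, e1, e2, mul_assoc (ψ a.re)]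
        noncomm_ring }
  have hΦ : ∀ s t : F, Φ.toRatAlgHom (algebraMap F _ s + algebraMap F _ t * QuadraticAlgebra.omega)
      = ψ s + ψ t * j := fun s t => by simp [Φ]
  obtain ⟨h1, h2, h3, h4⟩ := cay_gen (E := QuadraticAlgebra F (-1) 0) (i := QuadraticAlgebra.omega)
    (by ext <;> simp [QuadraticAlgebra.re_one, QuadraticAlgebra.im_one])
    (fun e => ⟨e.re, e.im, by ext <;> simp⟩)
    (QuadraticAlgebra.finrank_eq_two _ _) hxy hy hx hN rfl
  rw [← hΦ, ← map_smul, minpoly.algHom_eq _ Φ.injective]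
  refine ⟨h1, h2, h3, fun s t => ?_⟩
  obtain ⟨c, hc⟩ := h4 (algebraMap F _ s + algebraMap F _ t * QuadraticAlgebra.omega)
  exact ⟨c, by rw [aeval_algHom_apply, hc, hΦ]⟩

end MG.Br
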