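import Pool.Agent.Lib.MP_33b3f9_ag.MG.Br.Diag
import Pool.Agent.Lib.MP_33b3f9_ag.MG.S0
import Pool.Agent.Lib.MP_33b3f9_ag.Un.TConj

/-!
Conjugation by an isogeny.
-/

set_option autoImplicit false

noncomputable section

namespace MG.Br

open Matrix MvPolynomial M4 M4.Un Pool.Agent.Lib.MP_33b3f9_ag

section aux

variable {μ : Type} [Fintype μ] [DecidableEq μ]

theorem conj_inv {G : Matrix μ μ ℤ} (hG : G.det ≠ 0) :
    ∃ A B : Matrix μ μ ℚ, A * B = 1 ∧ A.map (Rat.cast : ℚ → ℝ) = G.map (Int.cast : ℤ → ℝ) := by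
  refine ⟨G.map Int.cast, (G.map Int.cast)⁻¹, mul_nonsing_inv _ (Ne.isUnit ?_), ?_⟩
  · rw [← Int.cast_det]
    exact Int.cast_ne_zero.2 hG
  · ext i j
    simp

omit [DecidableEq μ] in
theorem conj_mul (Ω : Type) [Field Ω] [CharZero Ω] (x y : Matrix μ μ ℚ) :
    (x * y).map (Rat.cast : ℚ → Ω) = x.map Rat.cast * y.map Rat.cast :=
  Matrix.map_mul (f := Rat.castHom Ω)

theorem conj_one (Ω : Type) [Field Ω] [CharZero Ω] {A B : Matrix μ μ ℚ} (h : A * B = 1) :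
    A.map (Rat.cast : ℚ → Ω) * B.map Rat.cast = 1 := by
  rw [← conj_mul, h, Matrix.map_one _ Rat.cast_zero Rat.cast_one]

theorem conj_comm {R : Type} [Monoid R] {a b i i' d : R} (h : a * b = 1) (h' : b * a = 1)
    (hi : i' * a = a * i) : b * d * a * i = i * (b * d * a) ↔ d * i' = i' * d := by
  have k : i = b * i' * a := by rw [mul_assoc, hi, ← mul_assoc, h', one_mul]
  have c : ∀ x, a * (b * x) = x := fun x => by rw [← mul_assoc, h, one_mul]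
  have ha : IsUnit a := ⟨⟨a, b, h, h'⟩, rfl⟩
  have hb : IsUnit b := ⟨⟨b, a, h', h⟩, rfl⟩
  rw [k]
  simp only [mul_assoc, c]
  rw [hb.mul_right_inj, ← mul_assoc, ← mul_assoc, ha.mul_left_inj]

end aux

theorem lef_conj {g : ℕ} {τ : Matrix (Fin g) (Fin g) ℂ} (hτ : InH τ)
    {I : Matrix (Fin g ⊕ Fin g) (Fin g ⊕ Fin g) ℝ} {G : Matrix (Fin g ⊕ Fin g) (Fin g ⊕ Fin g) ℤ}
    (hG : G.det ≠ 0) (hGI : cst τ * mz G = mz G * I)
    (hL : Pool.Agent.MG.lef I ⊆ zeroSet ℂ (mtEqns I)) : LefX τ := by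
  obtain ⟨A, B, e1, eA⟩ := conj_inv hG
  have e2 := mul_eq_one_comm.1 e1
  rw [mz, ← eA] at hGI
  intro x hx hc
  have hJ : ∀ (Ω : Type) [Field Ω] [CharZero Ω],
      (J (Fin g) ℚ).map (Rat.cast : ℚ → Ω) = J (Fin g) Ω := fun Ω _ _ =>
    Matrix.map_J (Fin g) (Rat.castHom Ω)
  have hu : IsUnit x := by
    refine IsUnit.of_mul_eq_one_right (-(J (Fin g) ℂ * xᵀ * J (Fin g) ℂ)) ?_
    rw [neg_mul, mul_assoc, mul_assoc, ← mul_assoc xᵀ, hx, J_squared, neg_neg]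
  obtain ⟨x, rfl⟩ := hu
  have c1 := conj_one ℂ e1
  have c2 := conj_one ℂ e2
  have r1 := conj_one ℝ e1
  have r2 := conj_one ℝ e2
  have hy : ((glQ ℂ e1)⁻¹ * x * glQ ℂ e1).val =
      B.map (Rat.cast : ℚ → ℂ) * x.val * A.map Rat.cast := rfl
  refine mt_conj e1 hGI (g := (glQ ℂ e1)⁻¹ * x * glQ ℂ e1) (hL ⟨fun d hd => ?_, fun ψ hψ => ?_⟩) ?_
  · have k := hc (A * d * B) (by
      rw [conj_mul, conj_mul]
      refine (conj_comm r2 r1 ?_).2 hd
      rw [← (IsUnit.of_mul_eq_one _ r1).mul_right_inj, ← mul_assoc, ← hGI, mul_assoc, r1,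
        ← mul_assoc, r1, mul_one, one_mul])
    rw [conj_mul, conj_mul] at k
    rw [hy]
    exact ((conj_comm c2 c1 (i := x.val) (d := d.map (Rat.cast : ℚ → ℂ)) (by
      rw [mul_assoc, c1, mul_one])).1 k.symm).symm
  · have hs : (cst τ)ᵀ * J (Fin g) ℝ = -(J (Fin g) ℝ * cst τ) :=
      eq_neg_of_add_eq_zero_left (M8.E3.cst_sp hτ)
    have hq := M8.E3.cst_sq hτ
    have hi : I * B.map (Rat.cast : ℚ → ℝ) = B.map Rat.cast * cst τ := by
      rw [← (IsUnit.of_mul_eq_one _ r1).mul_right_inj, ← mul_assoc, ← hGI, mul_assoc, r1,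
        ← mul_assoc, r1, mul_one, one_mul]
    have k := hc (J (Fin g) ℚ * (Bᵀ * ψ * B)) (by
      rw [conj_mul, conj_mul, conj_mul, hJ, transpose_map]
      have h1 : (cst τ)ᵀ * ((B.map (Rat.cast : ℚ → ℝ))ᵀ * ψ.map Rat.cast * B.map Rat.cast) *
          cst τ = (B.map (Rat.cast : ℚ → ℝ))ᵀ * ψ.map Rat.cast * B.map Rat.cast := by
        rw [← mul_assoc, ← mul_assoc, ← transpose_mul, ← hi, mul_assoc, ← hi, transpose_mul,
          ← mul_assoc, mul_assoc _ Iᵀ, mul_assoc _ _ I, hψ.2]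
      generalize (B.map (Rat.cast : ℚ → ℝ))ᵀ * ψ.map Rat.cast * B.map Rat.cast = P at h1
      have h2 : J (Fin g) ℝ * (cst τ)ᵀ = -(cst τ * J (Fin g) ℝ) := by
        have := congrArg (fun z => J (Fin g) ℝ * z * J (Fin g) ℝ) hs
        simp only [mul_neg, neg_mul, mul_assoc, J_squared, mul_one, neg_inj] at this
        rwa [← mul_assoc, J_squared, neg_mul, one_mul] at this
      conv_lhs => rw [← h1]
      rw [mul_assoc, mul_assoc, hq, ← mul_assoc, ← mul_assoc, h2]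
      simp only [mul_neg, neg_mul, mul_one, neg_neg, mul_assoc])
    rw [conj_mul, conj_mul, conj_mul, hJ, transpose_map] at k
    have e : ψ.map (Rat.cast : ℚ → ℂ) = (A.map (Rat.cast : ℚ → ℂ))ᵀ *
        ((B.map (Rat.cast : ℚ → ℂ))ᵀ * ψ.map Rat.cast * B.map Rat.cast) * A.map Rat.cast := by
      rw [← mul_assoc, ← mul_assoc, ← transpose_mul, c2, transpose_one, one_mul, mul_assoc, c2,
        mul_one]
    have h3 : x.valᵀ * ((B.map (Rat.cast : ℚ → ℂ))ᵀ * ψ.map Rat.cast *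
        B.map Rat.cast) * x.val = (B.map (Rat.cast : ℚ → ℂ))ᵀ * ψ.map Rat.cast * B.map Rat.cast := by
      generalize (B.map (Rat.cast : ℚ → ℂ))ᵀ * ψ.map Rat.cast * B.map Rat.cast = P at k
      have p : P = -(J (Fin g) ℂ * (J (Fin g) ℂ * P)) := by
        rw [← mul_assoc, J_squared, neg_mul, one_mul, neg_neg]
      rw [p, mul_neg, neg_mul, ← mul_assoc, mul_assoc _ _ x.val, ← k, ← mul_assoc, hx]
    rw [hy, transpose_mul, transpose_mul]
    conv_rhs => rw [e, ← h3]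
    simp only [mul_assoc]
  · rw [hy]
    change _ = A.map (Rat.cast : ℚ → ℂ) * _ * B.map (Rat.cast : ℚ → ℂ)
    rw [← mul_assoc, ← mul_assoc, c1, one_mul, mul_assoc, c1, mul_one]

theorem end_conj {g : ℕ} {I I' : Matrix (Fin g ⊕ Fin g) (Fin g ⊕ Fin g) ℝ}
    {G : Matrix (Fin g ⊕ Fin g) (Fin g ⊕ Fin g) ℤ} (hG : G.det ≠ 0) (hGI : I' * mz G = mz G * I)
    {F : Type} [Ring F] [Algebra ℚ F] (φ : F →ₐ[ℚ] Matrix (Fin g ⊕ Fin g) (Fin g ⊕ Fin g) ℚ)
    (hE : Set.range φ = Pool.Agent.MG.End0 I) :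
    ∃ φ' : F →ₐ[ℚ] Matrix (Fin g ⊕ Fin g) (Fin g ⊕ Fin g) ℚ,
      ∀ d : Matrix (Fin g ⊕ Fin g) (Fin g ⊕ Fin g) ℚ,
        d.map (Rat.cast : ℚ → ℝ) * I' = I' * d.map (Rat.cast : ℚ → ℝ) ↔ ∃ f, φ' f = d := by
  obtain ⟨A, B, e1, eA⟩ := conj_inv hG
  have e2 := mul_eq_one_comm.1 e1
  rw [mz, ← eA] at hGI
  refine ⟨AlgHom.ofLinearMap (LinearMap.mulLeftRight ℚ (A, B) ∘ₗ φ.toLinearMap) ?_
    fun x y => ?_, fun d => ?_⟩
  · change A * φ 1 * B = 1
    rw [map_one, mul_one, e1]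
  · change A * φ (x * y) * B = A * φ x * B * (A * φ y * B)
    rw [map_mul]
    simp only [mul_assoc]
    rw [← mul_assoc B, e2, one_mul]
  · change _ ↔ ∃ x, A * φ x * B = d
    have k1 : (∃ x, A * φ x * B = d) ↔ B * d * A ∈ Set.range φ :=
      exists_congr fun x => ⟨fun e => by
        rw [← e, ← mul_assoc, ← mul_assoc, e2, one_mul, mul_assoc, e2, mul_one], fun e => by
        rw [e, ← mul_assoc, ← mul_assoc, e1, one_mul, mul_assoc, e1, mul_one]⟩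
    rw [k1, hE, ← conj_comm (conj_one ℝ e1) (conj_one ℝ e2) hGI, ← conj_mul, ← conj_mul]
    rfl

end MG.Br
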