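import Pool.Agent.Lib.MP_33b3f9_ag.MG.Br.Kr
import Pool.Agent.Lib.MP_33b3f9_ag.MT

/-!
The diagonal embedding and the Mumford-Tate equations.
-/

set_option autoImplicit false

noncomputable section

namespace MG.Br

open Matrix MvPolynomial M4 Pool.Agent.Lib.MP_33b3f9_ag

variable {κ : Type} [Fintype κ] [DecidableEq κ]

section sub

variable {μ o F Ω : Type} [Field F] [Field Ω] [Algebra F Ω]

/-- The matrix of the variables. -/
def diagX (o F : Type) [Field F] : Matrix o o (MvPolynomial (o × o) F) := .of fun s t => X (s, t)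

/-- Substitution of a matrix of polynomials. -/
def diagSb (M : Matrix μ μ (MvPolynomial (o × o) F)) (P : MvPolynomial (μ × μ) F) :
    MvPolynomial (o × o) F := aeval (fun p : μ × μ => M p.1 p.2) P

theorem diag_evalM (g : Matrix o o Ω) (M : Matrix μ μ (MvPolynomial (o × o) F))
    (P : MvPolynomial (μ × μ) F) : evalM g (diagSb M P) = evalM (M.map (evalM g)) P := by
  unfold evalM diagSb
  rw [← AlgHom.comp_apply, comp_aeval]
  rfl

theorem diagX_map (g : Matrix o o Ω) : (diagX o F).map (evalM g) = g := by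
  ext s t
  exact aeval_X _ _

end sub

section blk

variable {R : Type} [CommRing R]

/-- The upper left block. -/
def diagPr {R : Type} (g : Matrix (N2 κ) (N2 κ) R) : Matrix (κ ⊕ κ) (κ ⊕ κ) R :=
  g.submatrix (fun i => e2 κ (i, 0)) fun i => e2 κ (i, 0)

theorem diagPr_dl (x : Matrix (κ ⊕ κ) (κ ⊕ κ) R) : diagPr (dl x) = x := by
  ext i j
  exact (dl_apply x i j 0 0).trans (if_pos rfl)

/-- The matrix units of the second factor. -/
def diagE (κ R : Type) [DecidableEq κ] [CommRing R] (s t : Fin 2) : Matrix (N2 κ) (N2 κ) R :=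
  .of fun u v => if ((e2 κ).symm u).2 = s ∧ v = e2 κ (((e2 κ).symm u).1, t) then 1 else 0

theorem diagE_mul (s t : Fin 2) (g : Matrix (N2 κ) (N2 κ) R) (i : κ ⊕ κ) (p : Fin 2) (v : N2 κ) :
    (diagE κ R s t * g) (e2 κ (i, p)) v = if p = s then g (e2 κ (i, t)) v else 0 := by
  by_cases h : p = s <;> simp [Matrix.mul_apply, diagE, h]

theorem mul_diagE (s t : Fin 2) (g : Matrix (N2 κ) (N2 κ) R) (j : κ ⊕ κ) (q : Fin 2) (u : N2 κ) :
    (g * diagE κ R s t) u (e2 κ (j, q)) = if q = t then g u (e2 κ (j, s)) else 0 := by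
  rw [Matrix.mul_apply, Finset.sum_eq_single (e2 κ (j, s)) (fun v _ hv => ?_) (by simp)]
  · simp [diagE]
  · obtain ⟨⟨k, r⟩, rfl⟩ := (e2 κ).surjective v
    refine mul_eq_zero_of_right _ (if_neg fun h => hv ?_)
    simp only [Equiv.symm_apply_apply, EmbeddingLike.apply_eq_iff_eq, Prod.mk.injEq] at h
    rw [h.1, h.2.1]

theorem diagE_dl (s t : Fin 2) (x : Matrix (κ ⊕ κ) (κ ⊕ κ) R) :
    diagE κ R s t * dl x = dl x * diagE κ R s t :=
  M8.kr_ext (e2 κ) fun i j p q => by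
    rw [diagE_mul, mul_diagE, dl_apply, dl_apply]
    by_cases h : p = s <;> simp [h, eq_comm]

omit [Fintype κ] in
theorem diagE_map (s t : Fin 2) : (diagE κ ℤ s t).map (Int.cast : ℤ → R) = diagE κ R s t := by
  ext u v
  simp [diagE]

theorem dl_diagPr {g : Matrix (N2 κ) (N2 κ) R}
    (h : ∀ s, diagE κ R 0 s * g = g * diagE κ R 0 s) : dl (diagPr g) = g :=
  M8.kr_ext (e2 κ) fun i j s t => by
    have h1 := congrFun (congrFun (h s) (e2 κ (i, 0))) (e2 κ (j, t))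
    rw [diagE_mul, mul_diagE, if_pos rfl] at h1
    rw [dl_apply, h1, if_congr eq_comm rfl rfl]
    rfl

end blk

theorem diag_dl {F Ω : Type} [Field F] [Field Ω] [Algebra F Ω] (x : Matrix (κ ⊕ κ) (κ ⊕ κ) Ω)
    (P : MvPolynomial (N2 κ × N2 κ) F) :
    evalM x (diagSb (dl (diagX (κ ⊕ κ) F)) P) = evalM (dl x) P := by
  rw [diag_evalM, dl_map (by simp [evalM]), diagX_map]

theorem mt_dl {Ω : Type} [Field Ω] [Algebra ℚ Ω] {I : Matrix (κ ⊕ κ) (κ ⊕ κ) ℝ}
    {x : Matrix (κ ⊕ κ) (κ ⊕ κ) Ω} (hx : ∀ P ∈ mtEqns I, evalM x P = 0) :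
    ∀ P ∈ mtEqns (dl I), evalM (dl x) P = 0 := fun P hP => by
  rw [← diag_dl]
  refine hx _ ?_
  obtain ⟨S, ⟨⟨H, hH⟩, hS⟩, hP⟩ := hP
  refine ⟨diagSb (dl (diagX (κ ⊕ κ) ℚ)) '' S, ⟨⟨H.comap (Units.map
    (dl (κ := κ) (R := AlgebraicClosure ℚ)).toRingHom.toMonoidHom), ?_⟩, ?_⟩, P, hP, rfl⟩
  · ext g
    rw [SetLike.mem_coe, Subgroup.mem_comap, ← SetLike.mem_coe, hH]
    simp only [zeroSet, Set.mem_ofPred_eq, Set.forall_mem_image, diag_dl]
    rfl
  · rintro u v huv _ ⟨Q, hQ, rfl⟩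
    rw [diag_dl, map_add, map_smul, map_smul, map_one]
    exact hS u v huv Q hQ

theorem diag_main {F Ω : Type} [Field F] [Algebra ℚ F] [Field Ω] [Algebra ℚ Ω] [Algebra F Ω]
    {I : Matrix (κ ⊕ κ) (κ ⊕ κ) ℝ} {T : Set (GL (κ ⊕ κ) F)} (h1 : T ⊆ zeroSet F (mtEqns I))
    (h2 : ∀ T' : Set (GL (N2 κ) F), (∀ t', t' ∈ T' ↔ ∃ t ∈ T,
        (t' : Matrix (N2 κ) (N2 κ) F) = dl (t : Matrix (κ ⊕ κ) (κ ⊕ κ) F)) →
      T' ⊆ zeroSet F (mtEqns (dl I)) → zcl Ω T' = zeroSet Ω (mtEqns (dl I))) :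
    zcl Ω T = zeroSet Ω (mtEqns I) := by
  refine (MT_sub T _ h1).antisymm fun g hg P hP => ?_
  have h3 := h2 {t' | ∃ t ∈ T, (t' : Matrix (N2 κ) (N2 κ) F) = dl (t : Matrix (κ ⊕ κ) (κ ⊕ κ) F)}
    (fun _ => Iff.rfl) fun t' ⟨t, ht, e⟩ Q hQ => by
      rw [e]
      exact mt_dl (h1 ht) Q hQ
  have h4 : Units.map (dl (κ := κ) (R := Ω)).toRingHom.toMonoidHom g ∈
      zeroSet Ω (mtEqns (dl I)) := mt_dl hg
  have e : ∀ {R : Type} [Field R] [Algebra F R] (y : Matrix (κ ⊕ κ) (κ ⊕ κ) R),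
      evalM (dl y) (diagSb (diagPr (diagX (N2 κ) F)) P) = evalM y P := fun y => by
    rw [diag_evalM]
    change evalM (diagPr ((diagX (N2 κ) F).map (evalM (dl y)))) P = _
    rw [diagX_map, diagPr_dl]
  rw [← h3] at h4
  rw [← e]
  refine h4 _ fun t' ⟨t, ht, e'⟩ => ?_
  rw [e', e]
  exact hP t ht

/-- The Mumford-Tate group contains the symplectic matrices that commute with the
endomorphisms. -/
def LefX (τ : Matrix κ κ ℂ) : Prop :=
  ∀ x : Matrix (κ ⊕ κ) (κ ⊕ κ) ℂ, xᵀ * J κ ℂ * x = J κ ℂ → (∀ d : Matrix (κ ⊕ κ) (κ ⊕ κ) ℚ,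
    d.map (Rat.cast : ℚ → ℝ) * cst τ = cst τ * d.map (Rat.cast : ℚ → ℝ) →
      x * d.map (Rat.cast : ℚ → ℂ) = d.map (Rat.cast : ℚ → ℂ) * x) →
    ∀ P ∈ mtEqns (cst τ), evalM x P = 0

theorem diag_comm [Dim] {a b : MZ} {τ : Mat} (hE : EndX a b τ) {g : Matrix ν ν ℂ}
    (ha : Commute (zM ℂ a) g) (hb : Commute (zM ℂ b) g) {h : MZ}
    (hh : zr h * cst τ = cst τ * zr h) : zM ℂ h * g = g * zM ℂ h := by
  obtain ⟨d, c, c', hd, e⟩ := hE h hh
  have h1 : ∀ c : Polynomial ℤ, Commute (zM ℂ (Polynomial.aeval a c)) g := fun c => by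
    induction c using Polynomial.induction_on' with
    | add p q hp hq =>
      rw [map_add, zM_add]
      exact hp.add_left hq
    | monomial n k =>
      rw [Polynomial.aeval_monomial, ← Algebra.smul_def, zM_smul, zM_pow]
      exact (ha.pow_left n).smul_left _
  have h2 : Commute (zM ℂ (d • h)) g := by
    rw [e, zM_add, zM_mul]
    exact (h1 c).add_left ((h1 c').mul_left hb)
  refine smul_right_injective _ (Int.cast_ne_zero.2 hd : (d : ℂ) ≠ 0) ?_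
  have h3 := h2.eq
  rwa [zM_smul, Matrix.smul_mul, Matrix.mul_smul] at h3

theorem gen_of_lef [Nonempty κ] {τ : Matrix κ κ ℂ} (hL : LefX τ) :
    letI := D2 κ
    ∀ a b : MZ, EndX a b (dg (Fin 2) τ) → GEN a b (cst (dg (Fin 2) τ)) := by
  let _ := D2 κ
  intro a b hE g hg ha hb
  have h1 : ∀ h : Matrix (N2 κ) (N2 κ) ℤ, h.map (Int.cast : ℤ → ℝ) * dl (cst τ) =
      dl (cst τ) * h.map (Int.cast : ℤ → ℝ) →
      h.map (Int.cast : ℤ → ℂ) * g = g * h.map (Int.cast : ℤ → ℂ) := fun h hh =>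
    diag_comm hE ha hb (h := h) (by rw [← cst_dg] at hh; exact hh)
  obtain ⟨x, rfl⟩ : ∃ x, dl (κ := κ) x = g := ⟨_, dl_diagPr fun s => by
    have h2 := h1 (diagE κ ℤ 0 s) (by rw [diagE_map, diagE_dl])
    rwa [diagE_map] at h2⟩
  have h3 := mt_dl (hL x (dl_inj (by rw [map_mul, map_mul, dl_J, ← dl_tr]; exact hg))
    fun d hd => ?_)
  · rw [← cst_dg] at h3
    exact h3
  obtain ⟨N, hN⟩ := IsLocalization.exist_integer_multiples_of_finite (nonZeroDivisors ℤ)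
    fun s : (κ ⊕ κ) × (κ ⊕ κ) => d s.1 s.2
  choose G hG using hN
  have e : ∀ (R : Type) [Field R] [CharZero R],
      (Matrix.of (Function.curry G)).map (Int.cast : ℤ → R) =
        ((N.1 : ℤ) : R) • d.map (Rat.cast : ℚ → R) := fun R _ _ => by
    ext s t
    simpa using congrArg (Rat.cast : ℚ → R) (hG (s, t))
  have h4 := h1 (dl (Matrix.of (Function.curry G))) (by
    rw [dl_map Int.cast_zero, ← map_mul, ← map_mul, e, Matrix.smul_mul, Matrix.mul_smul, hd])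
  rw [dl_map Int.cast_zero, ← map_mul, ← map_mul, e, Matrix.smul_mul, Matrix.mul_smul] at h4
  exact (smul_right_injective _
    (Int.cast_ne_zero.2 (nonZeroDivisors.coe_ne_zero N) : ((N.1 : ℤ) : ℂ) ≠ 0) (dl_inj h4)).symm

end MG.Br
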