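import Pool.Agent.Lib.MP_33b3f9_ag.M8.N1
import Pool.Agent.Lib.MP_33b3f9_ag.MG.Tr

/-!
The square of a complex torus.
-/

set_option autoImplicit false

noncomputable section

namespace MG.Br

open Matrix M4

variable {κ α R : Type}

/-- The index set of the square. -/
@[reducible] def D2 (κ : Type) [Fintype κ] [DecidableEq κ] [Nonempty κ] : Dim :=
  ⟨κ × Fin 2, inferInstance, inferInstance, inferInstance⟩

/-- The index set of the lattice of the square. -/
abbrev N2 (κ : Type) : Type := (κ × Fin 2) ⊕ (κ × Fin 2)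

/-- Two copies of the lattice basis. -/
def e2 (κ : Type) : (κ ⊕ κ) × Fin 2 ≃ N2 κ := Equiv.sumProdDistrib κ κ (Fin 2)

theorem slt_apply (w : N2 κ → R) (j : Fin 2) (i : κ ⊕ κ) : slt w j i = w (e2 κ (i, j)) := by
  cases i <;> rfl

theorem slt_ext {w w' : N2 κ → R} (h : ∀ j, slt w j = slt w' j) : w = w' := by
  funext s
  obtain ⟨⟨i, j⟩, rfl⟩ := (e2 κ).surjective s
  rw [← slt_apply w, h, slt_apply]

theorem exists_slt (x : Fin 2 → κ ⊕ κ → R) : ∃ w : N2 κ → R, ∀ j, slt w j = x j :=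
  ⟨fun s => x ((e2 κ).symm s).2 ((e2 κ).symm s).1, fun j => funext fun i => by
    rw [slt_apply, Equiv.symm_apply_apply]⟩

theorem slt_add [Add R] (w w' : N2 κ → R) (j : Fin 2) : slt (w + w') j = slt w j + slt w' j := by
  funext i
  cases i <;> rfl

theorem slt_sub [Sub R] (w w' : N2 κ → R) (j : Fin 2) : slt (w - w') j = slt w j - slt w' j := by
  funext i
  cases i <;> rfl

theorem slt_smul {S : Type} [SMul S R] (c : S) (w : N2 κ → R) (j : Fin 2) :
    slt (c • w) j = c • slt w j := by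
  funext i
  cases i <;> rfl

theorem slt_rz (n : N2 κ → ℤ) (j : Fin 2) : slt (rz n) j = rz (slt n j) := by
  funext i
  cases i <;> rfl

/-- The period map of the square. -/
def p2 (p : (κ ⊕ κ → ℝ) ≃ₗ[ℝ] (κ → ℂ)) : (N2 κ → ℝ) ≃ₗ[ℝ] (κ × Fin 2 → ℂ) where
  toFun x q := p (slt x q.2) q.1
  map_add' x y := funext fun q => by rw [slt_add, map_add]; rfl
  map_smul' c x := funext fun q => by rw [slt_smul, map_smul]; rfl
  invFun z s := p.symm (fun i => z (i, ((e2 κ).symm s).2)) ((e2 κ).symm s).1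
  left_inv x := funext fun s => by
    change p.symm (p (slt x ((e2 κ).symm s).2)) _ = _
    rw [p.symm_apply_apply, slt_apply, Prod.mk.eta, Equiv.apply_symm_apply]
  right_inv z := funext fun q => by
    have h : slt (fun s => p.symm (fun i => z (i, ((e2 κ).symm s).2)) ((e2 κ).symm s).1) q.2 =
        p.symm fun i => z (i, q.2) := funext fun i => by rw [slt_apply, Equiv.symm_apply_apply]
    beta_reduce
    rw [h, p.apply_symm_apply]

theorem p2_slt (p : (κ ⊕ κ → ℝ) ≃ₗ[ℝ] (κ → ℂ)) (x : N2 κ → ℝ) (j : Fin 2) :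
    (fun i => p2 p x (i, j)) = p (slt x j) := rfl

/-- The Segre coordinates. -/
def u2 (u : (κ → ℂ) → α → ℂ) (z : κ × Fin 2 → ℂ) (a : α × α) : ℂ :=
  u (fun i => z (i, 0)) a.1 * u (fun i => z (i, 1)) a.2

/-- A relation on both factors. -/
def R2 (Q : (κ ⊕ κ → ℝ) → (κ ⊕ κ → ℝ) → Prop) (x y : N2 κ → ℝ) : Prop :=
  ∀ j, Q (slt x j) (slt y j)

variable [Fintype κ] [DecidableEq κ] [CommRing R]

/-- The diagonal embedding of matrices. -/
def dl : Matrix (κ ⊕ κ) (κ ⊕ κ) R →ₐ[R] Matrix (N2 κ) (N2 κ) R := M8.krL (e2 κ)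

theorem dl_apply (x : Matrix (κ ⊕ κ) (κ ⊕ κ) R) (i j : κ ⊕ κ) (s t : Fin 2) :
    dl x (e2 κ (i, s)) (e2 κ (j, t)) = if s = t then x i j else 0 := M8.kr_apply _ x i j s t

theorem dl_map {R' : Type} [CommRing R'] {f : R → R'} (hf : f 0 = 0)
    (x : Matrix (κ ⊕ κ) (κ ⊕ κ) R) : (dl x).map f = dl (x.map f) := M8.kr_map _ hf x

theorem dl_tr (x : Matrix (κ ⊕ κ) (κ ⊕ κ) R) : (dl x)ᵀ = dl xᵀ :=
  M8.kr_ext (e2 κ) fun i j s t => by
    rw [transpose_apply, dl_apply, dl_apply, transpose_apply, if_congr eq_comm rfl rfl]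

theorem dl_det (x : Matrix (κ ⊕ κ) (κ ⊕ κ) R) : (dl x).det = x.det ^ 2 := by
  change (M8.kr (e2 κ) x).det = _
  rw [M8.kr, det_submatrix_equiv_self, det_kronecker, det_one, one_pow, mul_one, Fintype.card_fin]

theorem dl_inj : Function.Injective (dl (κ := κ) (R := R)) := fun x y h => by
  ext i j
  have := congrFun (congrFun h (e2 κ (i, 0))) (e2 κ (j, 0))
  rwa [dl_apply, dl_apply, if_pos rfl, if_pos rfl] at this

theorem dl_blocks (A B C D : Matrix κ κ R) : dl (fromBlocks A B C D) =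
    fromBlocks (M8.krL (Equiv.refl _) A) (M8.krL (Equiv.refl _) B) (M8.krL (Equiv.refl _) C)
      (M8.krL (Equiv.refl _) D) := by
  refine M8.kr_ext (e2 κ) fun i j s t => ?_
  rw [dl_apply]
  rcases i with i | i <;> rcases j with j | j <;>
    exact (M8.kr_apply (Equiv.refl _) _ i j s t).symm

theorem dl_J : dl (J κ R) = J (κ × Fin 2) R := by
  rw [J, dl_blocks, map_zero, map_neg, map_one, J]

theorem slt_dl (x : Matrix (κ ⊕ κ) (κ ⊕ κ) R) (w : N2 κ → R) (j : Fin 2) :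
    slt (dl x *ᵥ w) j = x *ᵥ slt w j := by
  funext i
  rw [slt_apply, mulVec, dotProduct, ← (e2 κ).sum_comp, Fintype.sum_prod_type]
  simp only [dl_apply, ite_mul, zero_mul, Finset.sum_ite_eq, Finset.mem_univ, if_true, mulVec,
    dotProduct, slt_apply]

theorem cst_dg (τ : Matrix κ κ ℂ) : cst (dg (Fin 2) τ) = dl (cst τ) := by
  have h : dg (Fin 2) τ = M8.kr (Equiv.refl _) τ := M8.kr_ext (Equiv.refl _) fun i j s t =>
    (blockDiagonal_apply _ _ _).trans (M8.kr_apply (Equiv.refl _) τ i j s t).symm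
  rw [h, cst, cst, M8.kr_map _ Complex.zero_im, M8.kr_map _ Complex.zero_re, dl_blocks]
  simp only [← M8.krL_eq, M8.krL_inv, map_mul, map_neg, map_add]

omit [DecidableEq κ] in
theorem E_slt (x y : N2 κ → ℝ) : E x y = E (slt x 0) (slt y 0) + E (slt x 1) (slt y 1) := by
  rw [E, Fintype.sum_prod_type_right, Fin.sum_univ_two]
  rfl

omit [DecidableEq κ] in
theorem per_slt (τ : Matrix κ κ ℂ) (x : N2 κ → ℝ) (j : Fin 2) :
    (fun i => per (dg (Fin 2) τ) x (i, j)) = per τ (slt x j) := by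
  funext i
  simp [per, dg, mulVec, dotProduct, blockDiagonal_apply, Fintype.sum_prod_type, fa, fb, slt]

omit [DecidableEq κ] in
theorem hol2 {τ : Matrix κ κ ℂ} {m : ℝ} {f g : (κ ⊕ κ → ℝ) → ℂ} (hf : f ∈ Hol τ m)
    (hg : g ∈ Hol τ m) : (fun w => f (slt w 0) * g (slt w 1)) ∈ Hol (dg (Fin 2) τ) m := by
  obtain ⟨F, hF, h1⟩ := hf
  obtain ⟨G, hG, h2⟩ := hg
  refine ⟨fun z => F (fun i => z (i, 0)) * G (fun i => z (i, 1)), by fun_prop, fun w => ?_⟩
  simp only [h1, h2, mfprod_dot, Fin.sum_univ_two, per_slt, mul_add, add_div, ee_add]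
  rw [mul_mul_mul_comm]
  rfl

omit [DecidableEq κ] in
theorem U2 (m : ℝ) (y w : N2 κ → ℝ) (f g : (κ ⊕ κ → ℝ) → ℂ) :
    U m y (fun w => f (slt w 0) * g (slt w 1)) w =
      U m (slt y 0) f (slt w 0) * U m (slt y 1) g (slt w 1) := by
  simp only [U, slt_add, E_slt y w, Complex.ofReal_add, mul_add, add_div, ee_add]
  ring

end MG.Br
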