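import Pool.Agent.Lib.MP_33b3f9_ag.MG.Br.Kr
import Pool.Agent.Lib.MP_33b3f9_ag.MG.Br.Cay

/-!
The normal form of the endomorphism algebra of the square.
-/

set_option autoImplicit false

noncomputable section

namespace MG.Br

open Matrix M4
open scoped Kronecker

/-- A skew adjoint endomorphism is not killed by a product of real linear factors. -/
theorem pel_skew {κ : Type} [Fintype κ] [DecidableEq κ] [Nonempty κ] {τ : Matrix κ κ ℂ}
    (hτ : InH τ) {X : Matrix (κ ⊕ κ) (κ ⊕ κ) ℝ} (hX : Commute X (cst τ)) (hd : M8.dag X = -X)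
    (s : Multiset ℝ) (hs : ∀ r ∈ s, r ≠ 0) :
    Polynomial.aeval X (s.map (Polynomial.X - Polynomial.C ·)).prod ≠ 0 := by
  induction s using Multiset.induction_on with
  | empty => simp
  | cons r s ih =>
    have h1 := ih fun r h => hs r (Multiset.mem_cons_of_mem h)
    rw [Multiset.map_cons, Multiset.prod_cons, map_mul]
    have h2 : Commute (Polynomial.aeval X (s.map (Polynomial.X - Polynomial.C ·)).prod)
        (cst τ) := by
      rw [Polynomial.aeval_eq_sum_range]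
      exact Commute.sum_left _ _ _ fun i _ => (hX.pow_left i).smul_left _
    generalize Polynomial.aeval X (s.map (Polynomial.X - Polynomial.C ·)).prod = Y at h1 h2
    intro h
    rw [map_sub, Polynomial.aeval_X, Polynomial.aeval_C, Algebra.algebraMap_eq_smul_one, sub_mul,
      smul_mul_assoc, one_mul, sub_eq_zero] at h
    have h3 := congrArg (fun Z => M8.dag Z * Y) h
    simp only [M8.dag_mul, hd, map_smul] at h3
    rw [mul_neg, neg_mul, mul_assoc, h, mul_smul_comm, smul_mul_assoc] at h3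
    have h4 : (2 * r) • (M8.dag Y * Y) = 0 := by
      rw [two_mul, add_smul]
      exact eq_neg_iff_add_eq_zero.1 h3.symm
    exact (M8.dag_pos hτ h1 h2 (c := 0) (((smul_eq_zero.1 h4).resolve_left (mul_ne_zero two_ne_zero
      (hs r (Multiset.mem_cons_self _ _)))).trans (zero_smul _ _).symm)).false

/-- The endomorphisms are self adjoint. -/
theorem pel_dag {κ : Type} [Fintype κ] [DecidableEq κ] [Nonempty κ] {τ : Matrix κ κ ℂ}
    (hτ : InH τ) {F : Type} [Field F] [NumberField F] [NumberField.IsTotallyReal F]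
    (φ : F →ₐ[ℚ] Matrix (κ ⊕ κ) (κ ⊕ κ) ℚ)
    (hE : ∀ d : Matrix (κ ⊕ κ) (κ ⊕ κ) ℚ,
      d.map (Rat.cast : ℚ → ℝ) * cst τ = cst τ * d.map (Rat.cast : ℚ → ℝ) ↔ ∃ f, φ f = d)
    (f : F) : M8.dag (φ f) = φ f := by
  obtain ⟨y, hy⟩ := (hE (M8.dag (φ f))).1 (by
    have h1 := congrArg M8.dag ((hE _).2 ⟨f, rfl⟩)
    rw [M8.dag_mul, M8.dag_mul, M8.dag_cst hτ, neg_mul, mul_neg, neg_inj] at h1
    rw [show (M8.dag (φ f)).map Rat.cast = _ from M8.dag_map (Rat.castHom ℝ) _]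
    exact h1.symm)
  have h1 : M8.dag (φ (f - y)) = -φ (f - y) := by
    rw [map_sub, map_sub, hy, M8.dag_dag, neg_sub]
  by_contra h
  have hu : f - y ≠ 0 := sub_ne_zero.2 fun e => h (by rw [← hy, e])
  generalize f - y = u at hu h1
  have hi : IsIntegral ℚ u := Algebra.IsIntegral.isIntegral u
  have h2 : ((minpoly ℚ u).map (algebraMap ℚ ℝ)).Splits := by
    refine Polynomial.Splits.of_splits_map (algebraMap ℝ ℂ) (IsAlgClosed.splits _) fun z hz => ?_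
    rw [Polynomial.map_map, ← IsScalarTower.algebraMap_eq, Polynomial.mem_roots',
      Polynomial.IsRoot.def, Polynomial.eval_map_algebraMap] at hz
    obtain ⟨σ, rfl⟩ := (NumberField.Embeddings.range_eval_eq_rootSet_minpoly F ℂ u).symm.subset
      (Polynomial.mem_rootSet.2 ⟨minpoly.ne_zero hi, hz.2⟩)
    exact ⟨(σ u).re, Complex.conj_eq_iff_re.1 (RingHom.congr_fun
      (NumberField.ComplexEmbedding.isReal_iff.1
        (NumberField.IsTotallyReal.complexEmbedding_isReal σ)) u)⟩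
  refine pel_skew hτ (X := (φ u).map (Rat.castHom ℝ)) ((hE _).2 ⟨u, rfl⟩) ?_
    ((minpoly ℚ u).map (algebraMap ℚ ℝ)).roots (fun r hr h0 => ?_) ?_
  · rw [← M8.dag_map, h1]
    exact map_neg (Rat.castHom ℝ).mapMatrix _
  · rw [h0, Polynomial.mem_roots', Polynomial.IsRoot.def, ← Polynomial.coeff_zero_eq_eval_zero,
      Polynomial.coeff_map, map_eq_zero] at hr
    exact minpoly.coeff_zero_ne_zero hi hu hr.2
  · rw [← h2.eq_prod_roots_of_monic ((minpoly.monic hi).map _), Polynomial.aeval_map_algebraMap]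
    exact (Polynomial.aeval_algHom_apply ((Algebra.ofId ℚ ℝ).mapMatrix.comp φ) u _).trans
      (by rw [minpoly.aeval, map_zero])

section dim

variable [Dim]

theorem pel_den (X : Matrix ν ν ℚ) : ∃ N : ℕ, 0 < N ∧ ∃ g : MZ, zM ℚ g = (N : ℚ) • X := by
  obtain ⟨N, hN⟩ := IsLocalization.exist_integer_multiples_of_finite (nonZeroDivisors ℤ)
    fun s : ν × ν => X s.1 s.2
  choose G hG using hN
  refine ⟨N.1.natAbs ^ 2, pow_pos (Int.natAbs_pos.2 (nonZeroDivisors.coe_ne_zero N)) 2,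
    N.1 • .of (Function.curry G), ?_⟩
  have h1 : ((N.1.natAbs ^ 2 : ℕ) : ℚ) = (N.1 : ℚ) * N.1 := by
    rw [← Int.cast_natCast, Nat.cast_pow, Int.natAbs_sq, sq, Int.cast_mul]
  rw [zM_smul, h1, mul_smul]
  refine congrArg _ ?_
  ext s t
  simpa using hG (s, t)

theorem pel_poly (a : MZ) (c : Polynomial ℚ) : ∃ (d : ℤ) (C : Polynomial ℤ), d ≠ 0 ∧
    zM ℚ (Polynomial.aeval a C) = (d : ℚ) • Polynomial.aeval (zM ℚ a) c := by
  obtain ⟨d, hd, h⟩ := IsLocalization.integerNormalization_spec (nonZeroDivisors ℤ) c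
  refine ⟨d, IsLocalization.integerNormalization (nonZeroDivisors ℤ) c,
    nonZeroDivisors.ne_zero hd, ?_⟩
  rw [← map_smul, Int.cast_smul_eq_zsmul, ← h, Polynomial.aeval_map_algebraMap]
  exact (Polynomial.aeval_algHom_apply (Int.castRingHom ℚ).mapMatrix.toIntAlgHom a _).symm

theorem pel_of {τ : Mat} (hτ : InH τ) (F : Type) [Field F] [NumberField F]
    [NumberField.IsTotallyReal F] (hg : Fintype.card ι = 8 * Module.finrank ℚ F) (ψ : F →ₐ[ℚ] Matrix ν ν ℚ) (j b : MZ)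
    (hj : j * j = -1) (hb : b * b = 1) (hbj : b * j = -(j * b))
    (jJ : jᵀ * J ι ℤ = J ι ℤ * -j) (bJ : bᵀ * J ι ℤ = J ι ℤ * b)
    (hψ : ∀ f, M8.dag (ψ f) = ψ f) (cj : ∀ f, Commute (ψ f) (zM ℚ j))
    (cb : ∀ f, Commute (ψ f) (zM ℚ b))
    (hc : ∀ f, Commute ((ψ f).map (Rat.cast : ℚ → ℝ)) (cst τ))
    (hjc : Commute (zr j) (cst τ)) (hbc : Commute (zr b) (cst τ))
    (hE : ∀ g : MZ, zr g * cst τ = cst τ * zr g → ∃ s t s' t',
      zM ℚ g = ψ s + ψ t * zM ℚ j + (ψ s' + ψ t' * zM ℚ j) * zM ℚ b) :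
    ∃ (a : MZ) (m n : ℕ), PEL (Module.finrank ℚ F) a b m n ∧ τ ∈ FX a b ∧ EndX a b τ := by
  obtain ⟨x, y, hxy, h⟩ := exists_cay F
  obtain ⟨N, hN, a, ha⟩ := pel_den (ψ x + ψ y * zM ℚ j)
  have hj' : zM ℚ j * zM ℚ j = -1 := by rw [← zM_mul, hj, zM_neg, zM_one]
  have hbj' : zM ℚ b * zM ℚ j = -(zM ℚ j * zM ℚ b) := by rw [← zM_mul, hbj, zM_neg, zM_mul]
  obtain ⟨h1, h2, h3, h4⟩ := h _ ψ (zM ℚ j) hj' cj N (Nat.cast_ne_zero.2 hN.ne')
  rw [← ha] at h1 h2 h3 h4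
  have dj : M8.dag (zM ℚ j) = -zM ℚ j :=
    M8.dag_eq (by rw [← zM_neg, ← zM_J, ← zM_tr, ← zM_mul, ← zM_mul, jJ])
  have da : M8.dag (zM ℚ a) = (N : ℚ) • (ψ x - ψ y * zM ℚ j) := by
    rw [ha, map_smul, map_add, M8.dag_mul, dj, hψ, hψ, neg_mul, ← (cj y).eq, sub_eq_add_neg]
  have e1 : (ψ x - ψ y * zM ℚ j) * (ψ x + ψ y * zM ℚ j) = 1 := by
    have k1 : ψ y * zM ℚ j * ψ x = ψ x * (ψ y * zM ℚ j) := by
      rw [mul_assoc, ← (cj x).eq, ← mul_assoc, ← mul_assoc, ← map_mul, ← map_mul, mul_comm y]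
    have k2 : ψ y * zM ℚ j * (ψ y * zM ℚ j) = -(ψ y * ψ y) := by
      rw [mul_assoc, ← mul_assoc (zM ℚ j), ← (cj y).eq, mul_assoc, hj', mul_neg, mul_one, mul_neg]
    rw [sub_mul, mul_add, mul_add, k1, k2, ← map_one ψ, ← hxy, map_add, sq, sq, map_mul, map_mul]
    abel
  have hP : PEL (Module.finrank ℚ F) a b (N ^ 2) (Fintype.card ν) := by
    refine ⟨Module.finrank_pos, hg, pow_pos hN 2, by rw [hb, trace_one], zM_injective ℚ ?_,
      ⟨1, by rw [hb, map_one], fun _ _ => by rw [map_one]; exact one_pos⟩, bJ, zM_injective ℚ ?_, h1, h2, fun z hz => ⟨?_, (h3 z hz).2⟩⟩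
    · rw [zM_mul, zM_mul, zM_tr, zM_smul, zM_J, ← M8.J_dag, mul_assoc, da, ha, smul_mul_smul_comm,
        e1, mul_smul_comm, mul_one, Int.cast_natCast, Nat.cast_pow, sq]
    · rw [zM_mul, zM_mul, zM_adj, ← M8.dag_apply, da, ha, mul_smul_comm, smul_mul_assoc, mul_add,
        sub_mul, ← (cb x).eq, ← mul_assoc, ← (cb y).eq, mul_assoc, hbj', mul_neg, mul_assoc,
        sub_eq_add_neg]
    · rw [(h3 z hz).1, Rat.cast_natCast, Nat.cast_pow]
  have hz : ∀ g : MZ, (zM ℚ g).map (Rat.castHom ℝ) = zr g := zM_map (Rat.castHom ℝ)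
  refine ⟨a, N ^ 2, _, hP, (hP.fx_iff hτ).2 ⟨?_, hbc.eq⟩, fun g hg => ?_⟩
  · have k : zr a = (N : ℝ) • ((ψ x).map (Rat.cast : ℚ → ℝ) + (ψ y).map Rat.cast * zr j) := by
      rw [← hz, ← hz, ha]
      refine Eq.trans ?_ (congrArg (fun u => (N : ℝ) • ((ψ x).map (Rat.cast : ℚ → ℝ) + u))
        (Matrix.map_mul (f := Rat.castHom ℝ)))
      ext s t
      simp [mul_add]
    rw [k]
    exact (((hc x).add_left ((hc y).mul_left hjc)).smul_left _).eq
  · obtain ⟨s, t, s', t', e⟩ := hE g hg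
    obtain ⟨c, hc⟩ := h4 s t
    obtain ⟨c', hc'⟩ := h4 s' t'
    obtain ⟨d, C, hd, k⟩ := pel_poly a c
    obtain ⟨d', C', hd', k'⟩ := pel_poly a c'
    refine ⟨d * d', d' • C, d • C', mul_ne_zero hd hd', zM_injective ℚ ?_⟩
    rw [map_smul, map_smul, zM_add, zM_mul, zM_smul, zM_smul, zM_smul, k, k', hc, hc', e,
      smul_smul, smul_smul, smul_mul_assoc, smul_add, Int.cast_mul, mul_comm (d' : ℚ)]

end dim

section tn

variable {κ R : Type} [CommRing R]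

/-- The tensor product of a matrix and a `2 × 2` matrix. -/
def tn (x : Matrix (κ ⊕ κ) (κ ⊕ κ) R) (u : Matrix (Fin 2) (Fin 2) R) : Matrix (N2 κ) (N2 κ) R :=
  (x ⊗ₖ u).submatrix (e2 κ).symm (e2 κ).symm

theorem tn_apply (x : Matrix (κ ⊕ κ) (κ ⊕ κ) R) (u : Matrix (Fin 2) (Fin 2) R) (i j : κ ⊕ κ)
    (s t : Fin 2) : tn x u (e2 κ (i, s)) (e2 κ (j, t)) = x i j * u s t := by
  simp [tn]

theorem tn_tr (x : Matrix (κ ⊕ κ) (κ ⊕ κ) R) (u : Matrix (Fin 2) (Fin 2) R) :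
    (tn x u)ᵀ = tn xᵀ uᵀ := rfl

theorem tn_neg (x : Matrix (κ ⊕ κ) (κ ⊕ κ) R) (u : Matrix (Fin 2) (Fin 2) R) :
    tn x (-u) = -tn x u :=
  M8.kr_ext (e2 κ) fun i j s t => by rw [neg_apply, tn_apply, tn_apply, neg_apply, mul_neg]

theorem tn_map {R' : Type} [CommRing R'] (f : R →+* R') (x : Matrix (κ ⊕ κ) (κ ⊕ κ) R)
    (u : Matrix (Fin 2) (Fin 2) R) : (tn x u).map f = tn (x.map f) (u.map f) :=
  M8.kr_ext (e2 κ) fun i j s t => by
    rw [map_apply, tn_apply, tn_apply, map_mul, map_apply, map_apply]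

/-- The blocks of a matrix. -/
def blk {S : Type} (g : Matrix (N2 κ) (N2 κ) S) (s t : Fin 2) : Matrix (κ ⊕ κ) (κ ⊕ κ) S :=
  of fun i j => g (e2 κ (i, s)) (e2 κ (j, t))

variable [Fintype κ]

theorem tn_mul (x y : Matrix (κ ⊕ κ) (κ ⊕ κ) R) (u v : Matrix (Fin 2) (Fin 2) R) :
    tn x u * tn y v = tn (x * y) (u * v) := by
  rw [tn, tn, tn, submatrix_mul_equiv, ← mul_kronecker_mul]

variable [DecidableEq κ]

theorem dl_tn (x : Matrix (κ ⊕ κ) (κ ⊕ κ) R) : dl x = tn x 1 := rfl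

theorem tn_one : tn (1 : Matrix (κ ⊕ κ) (κ ⊕ κ) R) 1 = 1 := by rw [← dl_tn, map_one]

theorem tn_com (x : Matrix (κ ⊕ κ) (κ ⊕ κ) R) (u : Matrix (Fin 2) (Fin 2) R) :
    Commute (dl x) (tn 1 u) := by
  rw [Commute, SemiconjBy, dl_tn, tn_mul, tn_mul, mul_one, mul_one, one_mul, one_mul]

omit [Fintype κ] in
theorem tn_int (R : Type) [CommRing R] (u : Matrix (Fin 2) (Fin 2) ℤ) :
    (tn (1 : Matrix (κ ⊕ κ) (κ ⊕ κ) ℤ) u).map (Int.cast : ℤ → R) = tn 1 (u.map Int.cast) :=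
  (tn_map (Int.castRingHom R) 1 u).trans (by rw [Matrix.map_one _ (map_zero _) (map_one _)]; rfl)

theorem blk_com {g : Matrix (N2 κ) (N2 κ) R} {c : Matrix (κ ⊕ κ) (κ ⊕ κ) R}
    (h : g * dl c = dl c * g) (s t : Fin 2) : blk g s t * c = c * blk g s t := by
  ext i j
  have k := congrFun (congrFun h (e2 κ (i, s))) (e2 κ (j, t))
  rw [mul_apply, mul_apply, ← (e2 κ).sum_comp, ← (e2 κ).sum_comp, Fintype.sum_prod_type,
    Fintype.sum_prod_type] at k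
  simpa only [dl_apply, mul_ite, ite_mul, mul_zero, zero_mul, Finset.sum_ite_eq,
    Finset.sum_ite_eq', Finset.mem_univ, if_true, mul_apply, blk, of_apply] using k

end tn

theorem exists_pel {κ : Type} [Fintype κ] [DecidableEq κ] [Nonempty κ] {τ : Matrix κ κ ℂ}
    (hτ : InH τ) (F : Type) [Field F]
    [NumberField F] [NumberField.IsTotallyReal F]
    (hg : Fintype.card κ = 4 * Module.finrank ℚ F) (φ : F →ₐ[ℚ] Matrix (κ ⊕ κ) (κ ⊕ κ) ℚ)
    (hE : ∀ d : Matrix (κ ⊕ κ) (κ ⊕ κ) ℚ,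
      d.map (Rat.cast : ℚ → ℝ) * cst τ = cst τ * d.map (Rat.cast : ℚ → ℝ) ↔ ∃ f, φ f = d) :
    letI := D2 κ
    ∃ (a b : MZ) (m n : ℕ), PEL (Module.finrank ℚ F) a b m n ∧ dg (Fin 2) τ ∈ FX a b ∧
      EndX a b (dg (Fin 2) τ) ∧ b * b = 1 := by
  let j : Matrix (Fin 2) (Fin 2) ℤ := !![0, -1; 1, 0]
  let b : Matrix (Fin 2) (Fin 2) ℤ := !![1, 0; 0, -1]
  have hJ : ∀ u v : Matrix (Fin 2) (Fin 2) ℤ, uᵀ = v →
      (tn 1 u)ᵀ * J (κ × Fin 2) ℤ = J (κ × Fin 2) ℤ * tn 1 v := fun u v h => by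
    rw [← dl_J, tn_tr, transpose_one, h, (tn_com _ _).eq]
  have hc : ∀ u : Matrix (Fin 2) (Fin 2) ℤ,
      Commute ((tn 1 u).map (Int.cast : ℤ → ℝ)) (cst (dg (Fin 2) τ)) := fun u => by
    rw [tn_int, cst_dg]
    exact (tn_com _ _).symm
  have hq : ∀ (u : Matrix (Fin 2) (Fin 2) ℤ) f,
      Commute (dl (φ f)) ((tn 1 u).map (Int.cast : ℤ → ℚ)) := fun u f => by
    rw [tn_int]
    exact tn_com _ _
  have h1 : tn (1 : Matrix (κ ⊕ κ) (κ ⊕ κ) ℤ) j * tn 1 j = -1 := by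
    rw [tn_mul, mul_one, show j * j = -1 by decide, tn_neg, tn_one]
  have h2 : tn (1 : Matrix (κ ⊕ κ) (κ ⊕ κ) ℤ) b * tn 1 b = 1 := by
    rw [tn_mul, mul_one, show b * b = 1 by decide, tn_one]
  have h3 : tn (1 : Matrix (κ ⊕ κ) (κ ⊕ κ) ℤ) b * tn 1 j = -(tn 1 j * tn 1 b) := by
    rw [tn_mul, tn_mul, show b * j = -(j * b) by decide, tn_neg]
  have h4 := hJ j (-j) (by decide)
  rw [tn_neg] at h4
  have h5 : ∀ f, M8.dag (dl (φ f)) = dl (φ f) := fun f => M8.dag_eq (by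
    rw [← dl_J, dl_tr, ← map_mul, ← map_mul, ← M8.J_dag, pel_dag hτ φ hE])
  have h6 : ∀ f, Commute ((dl (φ f)).map (Rat.cast : ℚ → ℝ)) (cst (dg (Fin 2) τ)) := fun f => by
    rw [dl_map Rat.cast_zero, cst_dg]
    exact Commute.map ((hE _).2 ⟨f, rfl⟩) dl
  have h7 : ∀ g : Matrix (N2 κ) (N2 κ) ℤ, g.map (Int.cast : ℤ → ℝ) * cst (dg (Fin 2) τ) =
      cst (dg (Fin 2) τ) * g.map (Int.cast : ℤ → ℝ) → ∃ s t s' t',
      g.map (Int.cast : ℤ → ℚ) = dl (φ s) + dl (φ t) * (tn 1 j).map (Int.cast : ℤ → ℚ) +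
        (dl (φ s') + dl (φ t') * (tn 1 j).map (Int.cast : ℤ → ℚ)) *
          (tn 1 b).map (Int.cast : ℤ → ℚ) := fun g h => by
    rw [cst_dg] at h
    have k : ∀ s t, ∃ f, φ f = blk (g.map (Int.cast : ℤ → ℚ)) s t := fun s t => (hE _).1 (by
      have e : (blk (g.map (Int.cast : ℤ → ℚ)) s t).map (Rat.cast : ℚ → ℝ) =
          blk (g.map (Int.cast : ℤ → ℝ)) s t := by
        ext p q
        simp [blk]
      rw [e]
      exact blk_com h s t)
    choose f hf using k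
    refine ⟨(1 / 2 : ℚ) • (f 0 0 + f 1 1), (1 / 2 : ℚ) • (f 1 0 - f 0 1),
      (1 / 2 : ℚ) • (f 0 0 - f 1 1), (1 / 2 : ℚ) • (f 0 1 + f 1 0), ?_⟩
    rw [add_mul, tn_int, tn_int]
    simp only [dl_tn, tn_mul, mul_one, one_mul]
    simp only [map_smul, map_add, map_sub, hf]
    refine M8.kr_ext (e2 κ) fun p q s t => ?_
    simp only [Matrix.add_apply, tn_apply]
    fin_cases s <;> fin_cases t <;> simp [blk, j, b, mul_apply] <;> ring
  let _ := D2 κ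
  obtain ⟨a, m, n, k1, k2, k3⟩ := pel_of (inH_dg hτ) F (by
      change Fintype.card (κ × Fin 2) = _
      rw [Fintype.card_prod, Fintype.card_fin, hg]
      ring)
    (dl.comp φ) (tn 1 j) (tn 1 b) h1 h2 h3 h4 (hJ b b (by decide)) h5 (hq j) (hq b) h6 (hc j)
    (hc b) h7
  exact ⟨a, _, m, n, k1, k2, k3, h2⟩

end MG.Br
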