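import Pool.Agent.Lib.MP_33b3f9_ag.MG.Br.Kr
import Pool.Agent.Lib.MP_33b3f9_ag.Un.GMain
import Pool.Agent.Lib.MP_33b3f9_ag.Un.TAdic

/-!
The Segre coordinates of the square of a complex torus.
-/

set_option autoImplicit false

noncomputable section

namespace MG.Br

open Matrix MvPolynomial M4 M4.Un Pool.Agent.Lib.MP_33b3f9_ag

variable {κ α : Type} [Fintype κ] [DecidableEq κ]

theorem tens_iff {a b a' b' : α → ℂ} (ha : a ≠ 0) (hb : b ≠ 0) :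
    (∃ c : ℂ, ∀ q : α × α, a q.1 * b q.2 = c * (a' q.1 * b' q.2)) ↔
      (∃ c : ℂ, ∀ i, a i = c * a' i) ∧ ∃ c : ℂ, ∀ i, b i = c * b' i := by
  obtain ⟨i, hi⟩ := Function.ne_iff.1 ha
  obtain ⟨j, hj⟩ := Function.ne_iff.1 hb
  have hi' : a i ≠ 0 := hi
  have hj' : b j ≠ 0 := hj
  refine ⟨fun ⟨c, hc⟩ => ⟨⟨c * b' j / b j, fun s => ?_⟩, c * a' i / a i, fun s => ?_⟩,
    fun ⟨⟨c, hc⟩, d, hd⟩ => ⟨c * d, fun q => ?_⟩⟩
  · rw [div_mul_eq_mul_div, eq_div_iff hj']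
    linear_combination hc (s, j)
  · rw [div_mul_eq_mul_div, eq_div_iff hi']
    linear_combination hc (i, s)
  · rw [hc, hd]
    ring

/-- Equations of the Segre image. -/
def J2 (J : Set (MvPolynomial α ℂ)) : Set (MvPolynomial (α × α) ℂ) :=
  {F | (∃ a b a' b', F = X (a, b) * X (a', b') - X (a, b') * X (a', b)) ∨ ∃ a b, ∃ G ∈ J,
    F = X (a, b) * rename (fun i => (i, b)) G ∨ F = X (a, b) * rename (fun i => (a, i)) G}

omit [Fintype κ] [DecidableEq κ] in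
theorem seg_img (u : (κ → ℂ) → α → ℂ) (J : Set (MvPolynomial α ℂ))
    (himg : ∀ v : α → ℂ, v ≠ 0 → ((∀ F ∈ J, eval v F = 0) ↔ ∃ z, ∃ c : ℂ, v = c • u z))
    (v : α × α → ℂ) (hv : v ≠ 0) :
    (∀ F ∈ J2 J, eval v F = 0) ↔ ∃ z, ∃ c : ℂ, v = c • u2 u z := by
  constructor
  · intro h
    obtain ⟨⟨a, b⟩, hab⟩ := Function.ne_iff.1 hv
    have h0 : v (a, b) ≠ 0 := hab
    obtain ⟨z, c, hc⟩ := (himg (fun i => v (i, b)) fun e => h0 (congrFun e a)).1 fun G hG => by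
      have h1 := h _ (Or.inr ⟨a, b, G, hG, Or.inl rfl⟩)
      rw [map_mul, eval_X, eval_rename] at h1
      exact (mul_eq_zero.1 h1).resolve_left h0
    obtain ⟨w, d, hd⟩ := (himg (fun i => v (a, i)) fun e => h0 (congrFun e b)).1 fun G hG => by
      have h1 := h _ (Or.inr ⟨a, b, G, hG, Or.inr rfl⟩)
      rw [map_mul, eval_X, eval_rename] at h1
      exact (mul_eq_zero.1 h1).resolve_left h0
    refine ⟨fun q => ![z, w] q.2 q.1, c * d / v (a, b), funext fun ⟨i, j⟩ => ?_⟩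
    have h1 := h _ (Or.inl ⟨i, j, a, b, rfl⟩)
    have h2 : v (i, b) = c * u z i := congrFun hc i
    have h3 : v (a, j) = d * u w j := congrFun hd j
    rw [map_sub, map_mul, map_mul, eval_X, eval_X, eval_X, eval_X, h2, h3] at h1
    change _ = c * d / v (a, b) * (u z i * u w j)
    rw [div_mul_eq_mul_div, eq_div_iff h0]
    linear_combination h1
  · rintro ⟨z, c, rfl⟩ F (⟨a, b, a', b', rfl⟩ | ⟨a, b, G, hG, rfl | rfl⟩)
    · simp only [map_sub, map_mul, eval_X, Pi.smul_apply, smul_eq_mul, u2]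
      ring
    · rw [map_mul, eval_X, eval_rename, mul_eq_zero, or_iff_not_imp_left]
      refine fun h0 => (himg _ fun e => h0 (congrFun e a)).2
        ⟨fun i => z (i, 0), c * u (fun i => z (i, 1)) b, funext fun i => ?_⟩ G hG
      simp only [Function.comp_apply, Pi.smul_apply, smul_eq_mul, u2]
      ring
    · rw [map_mul, eval_X, eval_rename, mul_eq_zero, or_iff_not_imp_left]
      refine fun h0 => (himg _ fun e => h0 (congrFun e b)).2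
        ⟨fun i => z (i, 1), c * u (fun i => z (i, 0)) a, funext fun i => ?_⟩ G hG
      simp only [Function.comp_apply, Pi.smul_apply, smul_eq_mul, u2]
      ring

omit [Fintype κ] [DecidableEq κ] in
theorem seg_fib (u : (κ → ℂ) → α → ℂ) (h0 : ∀ z, u z ≠ 0) (p : (κ ⊕ κ → ℝ) ≃ₗ[ℝ] (κ → ℂ))
    (hfib : ∀ z w, (∃ c : ℂ, u z = c • u w) ↔ ∃ n, z - w = p (rz n)) (z w : κ × Fin 2 → ℂ) :
    (∃ c : ℂ, u2 u z = c • u2 u w) ↔ ∃ n, z - w = p2 p (rz n) := by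
  have h1 := tens_iff (a' := u fun i => w (i, 0)) (b' := u fun i => w (i, 1))
    (h0 fun i => z (i, 0)) (h0 fun i => z (i, 1))
  have h2 : ∀ j : Fin 2, (∃ c : ℂ, ∀ a, u (fun i => z (i, j)) a = c * u (fun i => w (i, j)) a) ↔
      ∃ n, (fun i => (z - w) (i, j)) = p (rz n) := fun j =>
    (exists_congr fun c => funext_iff.symm).trans (hfib _ _)
  refine ((exists_congr fun c => funext_iff).trans h1).trans ?_
  rw [h2, h2, ← Fin.forall_fin_two (p := fun j => ∃ n, (fun i => (z - w) (i, j)) = p (rz n))]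
  constructor
  · intro h
    choose n hn using h
    obtain ⟨m, hm⟩ := exists_slt n
    refine ⟨m, funext fun ⟨i, j⟩ => (congrFun (hn j) i).trans ?_⟩
    rw [← hm, ← slt_rz]
    rfl
  · rintro ⟨n, hn⟩ j
    exact ⟨slt n j, by rw [hn, p2_slt, slt_rz]⟩

omit [Fintype κ] [DecidableEq κ] in
theorem seg_sub [Fintype α] (u : (κ → ℂ) → α → ℂ) (h0 : ∀ z, u z ≠ 0)
    (hsub : ∀ z₀ w₀, ∃ (d : ℕ) (Ψ : α → MvPolynomial α ℂ), (∀ a, (Ψ a).IsHomogeneous d) ∧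
      (∃ a, eval (u z₀) (Ψ a) ≠ 0) ∧ ∀ z, ∃ c : ℂ, ∀ a, eval (u z) (Ψ a) = c * u (z - w₀) a)
    (z₀ w₀ : κ × Fin 2 → ℂ) :
    ∃ (d : ℕ) (Ψ : α × α → MvPolynomial (α × α) ℂ), (∀ a, (Ψ a).IsHomogeneous d) ∧
      (∃ a, eval (u2 u z₀) (Ψ a) ≠ 0) ∧
      ∀ z, ∃ c : ℂ, ∀ a, eval (u2 u z) (Ψ a) = c * u2 u (z - w₀) a := by
  obtain ⟨d, Ψ, h1, ⟨a, h2⟩, h3⟩ := hsub (fun i => z₀ (i, 0)) fun i => w₀ (i, 0)
  obtain ⟨d', Ψ', h1', ⟨b, h2'⟩, h3'⟩ := hsub (fun i => z₀ (i, 1)) fun i => w₀ (i, 1)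
  obtain ⟨a₀, ha⟩ := Function.ne_iff.1 (h0 fun i => z₀ (i, 0))
  obtain ⟨b₀, hb⟩ := Function.ne_iff.1 (h0 fun i => z₀ (i, 1))
  have key : ∀ z (q : α × α), eval (u2 u z) (rename (fun i => (i, b₀)) (Ψ q.1) *
      rename (fun i => (a₀, i)) (Ψ' q.2)) =
      u (fun i => z (i, 1)) b₀ ^ d * eval (u fun i => z (i, 0)) (Ψ q.1) *
        (u (fun i => z (i, 0)) a₀ ^ d' * eval (u fun i => z (i, 1)) (Ψ' q.2)) := fun z q => by
    rw [map_mul, eval_rename, eval_rename, ← Gr.proja_smul (h1 _), ← Gr.proja_smul (h1' _)]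
    congr 3
    exact funext fun i => mul_comm _ _
  refine ⟨d + d', fun q => rename (fun i => (i, b₀)) (Ψ q.1) * rename (fun i => (a₀, i)) (Ψ' q.2),
    fun q => (h1 _).rename_isHomogeneous.mul (h1' _).rename_isHomogeneous, ⟨(a, b), ?_⟩,
    fun z => ?_⟩
  · rw [key]
    exact mul_ne_zero (mul_ne_zero (pow_ne_zero _ hb) h2) (mul_ne_zero (pow_ne_zero _ ha) h2')
  · obtain ⟨c, hc⟩ := h3 fun i => z (i, 0)
    obtain ⟨c', hc'⟩ := h3' fun i => z (i, 1)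
    refine ⟨u (fun i => z (i, 1)) b₀ ^ d * c * (u (fun i => z (i, 0)) a₀ ^ d' * c'), fun q => ?_⟩
    rw [key, hc, hc']
    change _ = _ * (u ((fun i => z (i, 0)) - fun i => w₀ (i, 0)) q.1 *
      u ((fun i => z (i, 1)) - fun i => w₀ (i, 1)) q.2)
    ring

theorem seg_rat [Fintype α] (u : (κ → ℂ) → α → ℂ) (hu : ∀ a, Differentiable ℂ fun z => u z a)
    (h0 : ∀ z, u z ≠ 0) (p : (κ ⊕ κ → ℝ) ≃ₗ[ℝ] (κ → ℂ)) (J : Set (MvPolynomial α ℂ))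
    (himg : ∀ v : α → ℂ, v ≠ 0 → ((∀ F ∈ J, eval v F = 0) ↔ ∃ z, ∃ c : ℂ, v = c • u z))
    (hfib : ∀ z w, (∃ c : ℂ, u z = c • u w) ↔ ∃ n, z - w = p (rz n))
    (hsub : ∀ z₀ w₀, ∃ (d : ℕ) (Ψ : α → MvPolynomial α ℂ), (∀ a, (Ψ a).IsHomogeneous d) ∧
      (∃ a, eval (u z₀) (Ψ a) ≠ 0) ∧ ∀ z, ∃ c : ℂ, ∀ a, eval (u z) (Ψ a) = c * u (z - w₀) a)
    (k : ℕ) (s : (κ × Fin 2 → ℂ) → ℂ) (hs : Differentiable ℂ s)
    (hs' : ∀ z w (c : ℂ), u2 u z = c • u2 u w → s z = c ^ k * s w) (z₀ : κ × Fin 2 → ℂ) :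
    ∃ (e : ℕ) (P Q : MvPolynomial (α × α) ℂ), P.IsHomogeneous (e + k) ∧ Q.IsHomogeneous e ∧
      eval (u2 u z₀) Q ≠ 0 ∧ ∀ z, s z * eval (u2 u z) Q = eval (u2 u z) P := by
  have hd : ∀ (j : Fin 2) a, Differentiable ℂ fun z : κ × Fin 2 → ℂ => u (fun i => z (i, j)) a :=
    fun j a => (hu a).comp (differentiable_pi.2 fun i => differentiable_apply _)
  refine rational (u2 u) (fun a => (hd 0 a.1).mul (hd 1 a.2)) (fun z e => ?_) (p2 p) (J2 J)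
    (seg_img u J himg) (seg_fib u h0 p hfib) (seg_sub u h0 hsub) k s hs hs' z₀
  obtain ⟨a, ha⟩ := Function.ne_iff.1 (h0 fun i => z (i, 0))
  obtain ⟨b, hb⟩ := Function.ne_iff.1 (h0 fun i => z (i, 1))
  exact mul_ne_zero ha hb (congrFun e (a, b))

theorem seg_iff (u : (κ → ℂ) → α → ℂ) (h0 : ∀ z, u z ≠ 0) (p : (κ ⊕ κ → ℝ) ≃ₗ[ℝ] (κ → ℂ))
    (σ : ℂ →+* ℂ) (x y : N2 κ → ℝ) :
    (∃ c, ∀ a, σ (u2 u (p2 p x) a) = c * u2 u (p2 p y) a) ↔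
      R2 (fun x y => ∃ c, ∀ a, σ (u (p x) a) = c * u (p y) a) x y := by
  have h1 : ∀ z, (fun a => σ (u z a)) ≠ 0 := fun z e =>
    h0 z (funext fun a => (map_eq_zero σ).1 (congrFun e a))
  rw [R2, Fin.forall_fin_two, ← tens_iff (h1 _) (h1 _)]
  simp only [u2, p2_slt, map_mul]

theorem gr2 {Q : (κ ⊕ κ → ℝ) → (κ ⊕ κ → ℝ) → Prop} (h : Gr Q) : Gr (R2 Q) where
  ex x := by
    choose y hy using fun j => h.ex (slt x j)
    obtain ⟨w, hw⟩ := exists_slt y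
    exact ⟨w, fun j => (hw j).symm ▸ hy j⟩
  sub x y x' y' h1 h2 j := by
    rw [slt_sub, slt_sub]
    exact h.sub _ _ _ _ (h1 j) (h2 j)
  un x y y' h1 h2 := by
    choose n hn using fun j => h.un _ _ _ (h1 j) (h2 j)
    obtain ⟨m, hm⟩ := exists_slt n
    exact ⟨m, slt_ext fun j => by rw [slt_sub, slt_rz, hm, hn]⟩
  sh x y n n' h1 j := by
    rw [slt_add, slt_add, slt_rz, slt_rz]
    exact h.sh _ _ _ _ (h1 j)

theorem ta_dl {Q : (κ ⊕ κ → ℝ) → (κ ⊕ κ → ℝ) → Prop} {l : ℕ} [Fact l.Prime]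
    {y : Matrix (κ ⊕ κ) (κ ⊕ κ) ℤ_[l]} (hy : Ta Q y) : Ta (R2 Q) (dl y) := fun n a b hab j => by
  rw [Kz.rq, Kz.rq, slt_smul, slt_smul, slt_rz, slt_rz]
  refine hy n _ _ fun i => ?_
  have h1 := hab (e2 κ (i, j))
  rw [← slt_apply (dl y *ᵥ _), slt_dl, ← slt_apply b] at h1
  simp only [slt_apply a]
  rwa [show slt (fun s => (a s : ℤ_[l])) j = fun s => (a (e2 κ (s, j)) : ℤ_[l]) from
    funext fun s => slt_apply _ j s] at h1

theorem ta2 {Q : (κ ⊕ κ → ℝ) → (κ ⊕ κ → ℝ) → Prop} (h : Gr Q) {l : ℕ} [Fact l.Prime]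
    {x : GL (N2 κ) ℤ_[l]} (hx : Ta (R2 Q) (x : Matrix (N2 κ) (N2 κ) ℤ_[l])) :
    ∃ y : GL (κ ⊕ κ) ℤ_[l], Ta Q (y : Matrix (κ ⊕ κ) (κ ⊕ κ) ℤ_[l]) ∧
      (x : Matrix (N2 κ) (N2 κ) ℤ_[l]) = dl (y : Matrix (κ ⊕ κ) (κ ⊕ κ) ℤ_[l]) := by
  obtain ⟨y, hy⟩ := h.ta (l := l)
  have h1 := Ta.inter (gr2 h).un (G := 1) (fun x y hxy => by
    rwa [Matrix.map_one _ Int.cast_zero Int.cast_one, one_mulVec, one_mulVec]) (ta_dl hy) hx
  rw [Matrix.map_one _ Int.cast_zero Int.cast_one, Matrix.mul_one, Matrix.one_mul] at h1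
  have h2 := (isUnit_iff_isUnit_det _).1 x.isUnit
  rw [h1, dl_det, isUnit_pow_iff two_ne_zero, ← isUnit_iff_isUnit_det] at h2
  exact ⟨h2.unit, hy, h1⟩

end MG.Br
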